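import Pool.Agent.Q142.DP.Prof
set_option autoImplicit false
open Filter Topology Set MeasureTheory

namespace Pool.Agent.Results.MP_c2298c_an.CounterexampleEveryN

/-! Semigroup notions in a complex Banach space `E` with a set of nonnegative elements
(`N f` means `f ≥ 0`); in `result` the space `E` is `L¹(ν)`. -/

section
variable {E : Type} [NormedAddCommGroup E] [NormedSpace ℂ E]

/-- `(U(t))_{t ≥ 0}` is a `C₀`-semigroup of bounded operators (only the values for `t ≥ 0`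
matter). -/
def IsSemigroup (U : ℝ → (E →L[ℂ] E)) : Prop :=
  U 0 = 1 ∧ (∀ s t : ℝ, 0 ≤ s → 0 ≤ t → U (s + t) = (U s).comp (U t)) ∧
    ∀ f : E, ContinuousOn (fun t => U t f) (Ici 0)

/-- `U(t)` is substochastic for all `t ≥ 0`: a contraction mapping nonnegative elements to
nonnegative elements. -/
def IsSubstochastic (N : E → Prop) (U : ℝ → (E →L[ℂ] E)) : Prop :=
  ∀ t : ℝ, 0 ≤ t → ∀ f : E, ‖U t f‖ ≤ ‖f‖ ∧ (N f → N (U t f))

/-- The (partially defined) operator `T` is the generator of `U`: `φ ∈ D(T)` and `Tφ = ψ` exactly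
when `(U(t)φ - φ)/t → ψ` as `t → 0+`. -/
def IsGenerator (U : ℝ → (E →L[ℂ] E)) (T : E →ₗ.[ℂ] E) : Prop :=
  ∀ φ ψ : E, (φ, ψ) ∈ T.graph ↔
    Tendsto (fun t : ℝ => ((t⁻¹ : ℝ) : ℂ) • (U t φ - φ)) (𝓝[>] 0) (𝓝 ψ)

/-- `B : D(T) → E` is `T`-bounded. -/
def IsTBounded (T : E →ₗ.[ℂ] E) (B : T.domain →ₗ[ℂ] E) : Prop :=
  ∃ a b : ℝ, ∀ φ : T.domain, ‖B φ‖ ≤ a * ‖(φ : E)‖ + b * ‖T φ‖

/-- `B : D(T) → E` is positive. -/
def IsPositive (N : E → Prop) (T : E →ₗ.[ℂ] E) (B : T.domain →ₗ[ℂ] E) : Prop :=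
  ∀ φ : T.domain, N (φ : E) → N (B φ)

/-- The operator `l - T : D(T) → E`. -/
def lsub (T : E →ₗ.[ℂ] E) (l : ℝ) (φ : T.domain) : E := (l : ℂ) • (φ : E) - T φ

/-- For all large real `l`, the operator `l - T : D(T) → E` is bijective and `C = B (l - T)⁻¹` is
a bounded operator with spectral radius `< 1`. -/
def HasSmallRadius (T : E →ₗ.[ℂ] E) (B : T.domain →ₗ[ℂ] E) : Prop :=
  ∃ w : ℝ, ∀ l : ℝ, w < l → Function.Bijective (lsub T l) ∧
    ∃ C : E →L[ℂ] E, (∀ φ : T.domain, C (lsub T l φ) = B φ) ∧ spectralRadius ℂ C < 1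

/-- `g` is the function `s ↦ V(t-s) B U(s) φ` on `[0,t]`; in particular `U(s)φ ∈ D(T)`. -/
def IsIntegrand (U : ℝ → (E →L[ℂ] E)) (T : E →ₗ.[ℂ] E) (B : T.domain →ₗ[ℂ] E)
    (V : ℝ → (E →L[ℂ] E)) (t : ℝ) (φ : E) (g : ℝ → E) : Prop :=
  ∀ s ∈ Icc 0 t, ∃ h : U s φ ∈ T.domain, g s = V (t - s) (B ⟨U s φ, h⟩)

/-- `V 0, V 1, V 2, ...` are the Dyson-Phillips terms `U_0, U_1, U_2, ...`: `U_0 = U`, and for
`φ ∈ D(T)` the function `s ↦ U_j(t-s) B U(s) φ` is integrable on `[0,t]` with integral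
`U_{j+1}(t) φ`. -/
def IsDysonPhillips (U : ℝ → (E →L[ℂ] E)) (T : E →ₗ.[ℂ] E) (B : T.domain →ₗ[ℂ] E)
    (V : ℕ → ℝ → (E →L[ℂ] E)) : Prop :=
  (∀ t : ℝ, 0 ≤ t → V 0 t = U t) ∧
  ∀ (j : ℕ) (t : ℝ), 0 ≤ t → ∀ φ ∈ T.domain, ∃ g : ℝ → E,
    IsIntegrand U T B (V j) t φ g ∧ IntervalIntegrable g volume 0 t ∧
      V (j + 1) t φ = ∫ s in (0 : ℝ)..t, g s

/-- A bounded operator is weakly compact: it maps bounded sets to relatively weakly compact sets
(sets whose closure in the weak topology is compact in the weak topology). -/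
def IsWeaklyCompact (A : E →L[ℂ] E) : Prop :=
  ∀ s : Set E, Bornology.IsBounded s → IsCompact (closure (toWeakSpace ℂ E '' (A '' s)))

/-- `(U, T, B, V)` satisfies all the hypotheses of the problem, where `V j` is the `j`-th
Dyson-Phillips term. -/
def Setting (N : E → Prop) (U : ℝ → (E →L[ℂ] E)) (T : E →ₗ.[ℂ] E) (B : T.domain →ₗ[ℂ] E)
    (V : ℕ → ℝ → (E →L[ℂ] E)) : Prop :=
  IsSemigroup U ∧ IsSubstochastic N U ∧ IsGenerator U T ∧
  IsTBounded T B ∧ IsPositive N T B ∧ HasSmallRadius T B ∧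
  IsDysonPhillips U T B V ∧ ∀ j t, 0 ≤ t → ∀ f, N f → N (V j t f)

/-- The failure of both conclusions for the operator family `W`: `W(t)` is weakly compact for
every `t ≥ 0`, but compact for no `t > 0`, and not norm continuous at `0`. -/
def WeaklyCompactOnly (W : ℝ → (E →L[ℂ] E)) : Prop :=
  (∀ t : ℝ, 0 ≤ t → IsWeaklyCompact (W t)) ∧ (∀ t : ℝ, 0 < t → ¬ IsCompactOperator (W t)) ∧
    ¬ ContinuousWithinAt W (Ici 0) 0

/-- There are `U, T, B` as in the problem such that every Dyson-Phillips term `U_n`, `n ≥ 1`,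
is `WeaklyCompactOnly`. -/
def HasCounterexample (N : E → Prop) : Prop :=
  ∃ (U : ℝ → (E →L[ℂ] E)) (T : E →ₗ.[ℂ] E) (B : T.domain →ₗ[ℂ] E)
    (V : ℕ → ℝ → (E →L[ℂ] E)), Setting N U T B V ∧ ∀ n : ℕ, 1 ≤ n → WeaklyCompactOnly (V n)

end

/-- An element of the complex space `L¹(ν)` is nonnegative: it is real and `≥ 0` almost
everywhere. -/
def IsNonneg {Ω : Type} [MeasurableSpace Ω] {ν : Measure Ω} (f : Lp ℂ 1 ν) : Prop :=
  ∀ᵐ x ∂ν, 0 ≤ (f x).re ∧ (f x).im = 0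

/-- There are a measure space, a substochastic `C₀`-semigroup `U` with generator `T` on `L¹(ν)` and
a perturbation `B` as in the problem whose Dyson-Phillips terms have the following property for
EVERY `n ≥ 1`: `U_n(t)` is weakly compact for every `t ≥ 0`, but `U_n(t)` is not compact for any
`t > 0`, and `t ↦ U_n(t)` is not continuous in operator norm at `t = 0`. -/
theorem result : ∃ (Ω : Type) (_ : MeasurableSpace Ω) (ν : Measure Ω),
    HasCounterexample (fun f : Lp ℂ 1 ν => IsNonneg f) := by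
  open Q142DP in
  refine ⟨ℕ ⊕ ℝ, inferInstance, nu, Dat.U, Dat.T, Dat.B, Dat.V,
    ⟨⟨Dat.U_zero, Dat.U_add, fun f => (Dat.U_cont f).continuousOn⟩,
      fun t _ f => ⟨Dat.U_norm t f, fun hf => cone.U t f hf⟩,
      fun φ ψ => Dat.T_gen φ ψ, ⟨0, 3 / 4, Dat.B_bdd⟩, fun φ hφ => cone.B φ hφ,
      ⟨1, fun l hl => ⟨Dat.res_bij hl, ?_⟩⟩,
      ⟨fun t _ => rfl, fun j t ht φ hφ => ?_⟩, fun j t _ f hf => cone.V j t f hf⟩, ?_⟩
  · have : Nontrivial E1 := ⟨Dat.d 0, 0, fun h => by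
      have := Dat.norm_d 0
      rw [h, norm_zero] at this
      exact zero_ne_one this⟩
    exact Dat.res_rad hl
  · exact Dat.DP j t ht ⟨φ, hφ⟩
  · intro n hn
    obtain ⟨j, rfl⟩ : ∃ j, n = j + 1 := ⟨n - 1, by omega⟩
    exact ⟨fun t ht => Dat.V_wc J hk _ norm_hk (fun _ => rfl) j t ht,
      fun t ht => Dat.V_nc (c := 1 / 2) (by norm_num) sep j ht,
      Dat.V_disc (c := 1 / 2) (by norm_num) sep j⟩

end Pool.Agent.Results.MP_c2298c_an.CounterexampleEveryN
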